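import Pool.Agent.K1H88.T3.Stm
import Pool.Agent.K1H81.TT.WRT

/-!
# Project T3, piece WRT: the root number in terms of `a`, `b`
-/

set_option autoImplicit false

namespace Pool.Agent.K1H88.T3

open Finset
open Pool.Agent.K1H81.TT (Semistable rootNumber ap chi S_AP)
open Pool.Agent.K1H81.TT.WRT (gcd_one js_sq js_mod)

namespace WRT

theorem disc (a b : ℤ) : F4 a b ^ 3 - F6 a b ^ 2 = 1728 * DD a b := by
  unfold F4 F6 DD EE
  ring

theorem pf (a b : ℤ) (hb : b ≠ 0) (hE : EE a b ≠ 0) :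
    (DD a b).natAbs.primeFactors = b.natAbs.primeFactors ∪ (EE a b).natAbs.primeFactors := by
  have h1 : b.natAbs ≠ 0 := Int.natAbs_ne_zero.2 hb
  have h2 : (EE a b).natAbs ≠ 0 := Int.natAbs_ne_zero.2 hE
  unfold DD
  rw [Int.natAbs_mul, Int.natAbs_pow, Nat.primeFactors_mul (pow_ne_zero _ h1) h2,
    Nat.primeFactors_pow _ (by norm_num)]

theorem cop (a b : ℤ) (h : IsCoprime a b) : IsCoprime b (EE a b) := by
  have h1 : IsCoprime b (a ^ 3) := (h.symm).pow_right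
  have h2 := h1.add_mul_left_right (-27)
  have h3 : a ^ 3 + b * -27 = EE a b := by
    unfold EE
    ring
  rwa [h3] at h2

theorem disj (a b : ℤ) (h : IsCoprime a b) :
    Disjoint b.natAbs.primeFactors (EE a b).natAbs.primeFactors :=
  Nat.Coprime.disjoint_primeFactors (Int.isCoprime_iff_gcd_eq_one.1 (cop a b h))

theorem six_mod (a : ℤ) (ha : a % 2 = 1) : a ^ 6 % 8 = 1 := by
  have h1 : a % 8 = 1 ∨ a % 8 = 3 ∨ a % 8 = 5 ∨ a % 8 = 7 := by omega
  rcases h1 with h | h | h | h <;>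
    simp [pow_succ, Int.mul_emod, h]

theorem chi_b (a b : ℤ) (h : IsCoprime a b) (p : ℕ) (hp : p.Prime) (hpb : (p : ℤ) ∣ b) :
    chi (-F6 a b) p = 1 := by
  have hpI : Prime (p : ℤ) := Nat.prime_iff_prime_int.1 hp
  have hpa : ¬ (p : ℤ) ∣ a := fun h3 => hpI.not_isUnit (h.isUnit_of_dvd' h3 hpb)
  unfold chi
  by_cases h2 : p = 2
  · rw [if_pos h2]
    subst h2
    obtain ⟨k, hk⟩ := hpb
    have ha : a % 2 = 1 := by
      push_cast at hpa
      omega
    have h4 : -F6 a b = a ^ 6 + 8 * (-(9 * a ^ 3 * k) + 108 * k ^ 2) := by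
      unfold F6
      rw [hk]
      push_cast
      ring
    have h5 := six_mod a ha
    rw [if_pos (by rw [h4]; omega)]
  · rw [if_neg h2]
    have h3 : (p : ℤ) ∣ -F6 a b - (a ^ 3) ^ 2 := by
      obtain ⟨k, hk⟩ := hpb
      refine ⟨-(36 * a ^ 3 * k) + 216 * b * k, ?_⟩
      unfold F6
      linear_combination (-36 * a ^ 3 + 216 * b) * hk
    rw [js_mod h3]
    exact js_sq hp (fun h5 => hpa (hpI.dvd_of_dvd_pow h5))

theorem js3 (p : ℕ) (hp : p.Prime) (h2 : p ≠ 2) (h3 : p ≠ 3) : jacobiSym (-3) p = ch3 p := by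
  have hodd : Odd p := hp.odd_of_ne_two h2
  rw [jacobiSym.mod_right (-3) hodd]
  have h12 : (4 * (-3 : ℤ).natAbs) = 12 := by norm_num
  rw [h12]
  have hm2 : p % 2 = 1 := Nat.odd_iff.mp hodd
  have hm3 : p % 3 ≠ 0 := by
    intro h
    exact h3 ((Nat.prime_dvd_prime_iff_eq Nat.prime_three hp).1 (Nat.dvd_of_mod_eq_zero h)).symm
  have hc : p % 12 = 1 ∨ p % 12 = 5 ∨ p % 12 = 7 ∨ p % 12 = 11 := by omega
  unfold ch3
  rcases hc with h | h | h | h
  · rw [h, if_pos (by omega)]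
    norm_num
  · rw [h, if_neg (by omega), if_pos (by omega)]
    norm_num
  · rw [h, if_pos (by omega)]
    norm_num
  · rw [h, if_neg (by omega), if_pos (by omega)]
    norm_num

theorem chi_E (a b : ℤ) (ha : ¬ (3 : ℤ) ∣ a) (h : IsCoprime a b) (p : ℕ) (hp : p.Prime)
    (hpE : (p : ℤ) ∣ EE a b) : chi (-F6 a b) p = ch3 p := by
  have hpI : Prime (p : ℤ) := Nat.prime_iff_prime_int.1 hp
  have h3 : p ≠ 3 := by
    rintro rfl
    have h4 : ((3 : ℕ) : ℤ) ∣ a ^ 3 := by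
      have h5 : a ^ 3 = EE a b + ((3 : ℕ) : ℤ) * (9 * b) := by
        unfold EE
        push_cast
        ring
      rw [h5]
      exact dvd_add hpE (dvd_mul_right _ _)
    have h6 := hpI.dvd_of_dvd_pow h4
    push_cast at h6
    exact ha h6
  have hp3 : ¬ (p : ℤ) ∣ 3 := by
    intro h4
    have h5 : p ∣ 3 := by exact_mod_cast h4
    exact h3 ((Nat.prime_dvd_prime_iff_eq hp Nat.prime_three).1 h5)
  have hpa : ¬ (p : ℤ) ∣ a := by
    intro h4
    have h5 : (p : ℤ) ∣ 3 ^ 3 * b := by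
      have h6 : 3 ^ 3 * b = a ^ 3 - EE a b := by
        unfold EE
        ring
      rw [h6]
      exact dvd_sub (dvd_pow h4 (by norm_num)) hpE
    rcases hpI.dvd_or_dvd h5 with h6 | h6
    · exact hp3 (hpI.dvd_of_dvd_pow h6)
    · exact hpI.not_isUnit (h.isUnit_of_dvd' h4 h6)
  unfold chi
  by_cases h2 : p = 2
  · rw [if_pos h2]
    subst h2
    have ha2 : a % 2 = 1 := by
      push_cast at hpa
      omega
    have h8 := six_mod a ha2
    have ha3 : a ^ 3 % 2 = 1 := by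
      simp [pow_succ, Int.mul_emod, ha2]
    have hb2 : b % 2 = 1 := by
      unfold EE at hpE
      push_cast at hpE
      omega
    have hab : (a ^ 3 * b) % 2 = 1 := by
      rw [Int.mul_emod, ha3, hb2]
      norm_num
    have h4 : -F6 a b = a ^ 6 - 36 * (a ^ 3 * b) + 8 * (27 * b ^ 2) := by
      unfold F6
      ring
    rw [if_neg (by rw [h4]; omega)]
    unfold ch3
    norm_num
  · rw [if_neg h2]
    have h9 : ¬ (p : ℤ) ∣ 9 := by
      have : (9 : ℤ) = 3 ^ 2 := by norm_num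
      rw [this]
      exact fun h5 => hp3 (hpI.dvd_of_dvd_pow h5)
    have key : jacobiSym (-F6 a b) p = jacobiSym (9 ^ 2 * -F6 a b) p := by
      rw [jacobiSym.mul_left, js_sq hp h9, one_mul]
    rw [key]
    obtain ⟨k, hk⟩ := hpE
    have h4 : (p : ℤ) ∣ 9 ^ 2 * -F6 a b - (-3) * (a ^ 3) ^ 2 := by
      refine ⟨3 * k * (28 * a ^ 3 - 216 * b), ?_⟩
      have h5 : 9 ^ 2 * -F6 a b - (-3) * (a ^ 3) ^ 2 = 3 * EE a b * (28 * a ^ 3 - 216 * b) := by
        unfold F6 EE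
        ring
      rw [h5, hk]
      ring
    rw [js_mod h4, jacobiSym.mul_left, js_sq hp (fun h5 => hpa (hpI.dvd_of_dvd_pow h5)), mul_one,
      js3 p hp h2 h3]

end WRT

theorem t_WRT (hAP : S_AP) : S_WRT := by
  rintro W a b hW ⟨ha, hb, hE, hc⟩ h4 h6
  have hΔ : W.Δ = DD a b := by
    have h1 := W.c_relation
    rw [h4, h6, WRT.disc a b] at h1
    linarith
  refine ⟨hΔ, ?_⟩
  have hap : ∀ p : ℕ, p.Prime → (p : ℤ) ∣ DD a b → ap W p = chi (-F6 a b) p := by
    intro p hp hd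
    rw [← hΔ] at hd
    rw [hAP W p hp hd (hW.2 p hp hd), h6]
  have hdb : ∀ p ∈ b.natAbs.primeFactors, ap W p = 1 := by
    intro p hp
    have hp1 : p.Prime := Nat.prime_of_mem_primeFactors hp
    have hp2 : (p : ℤ) ∣ b := Int.natCast_dvd.2 (Nat.dvd_of_mem_primeFactors hp)
    have hp3 : (p : ℤ) ∣ DD a b := by
      unfold DD
      exact Dvd.dvd.mul_right (dvd_pow hp2 (by norm_num)) _
    rw [hap p hp1 hp3, WRT.chi_b a b hc p hp1 hp2]
  have hdE : ∀ p ∈ (EE a b).natAbs.primeFactors, ap W p = ch3 p := by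
    intro p hp
    have hp1 : p.Prime := Nat.prime_of_mem_primeFactors hp
    have hp2 : (p : ℤ) ∣ EE a b := Int.natCast_dvd.2 (Nat.dvd_of_mem_primeFactors hp)
    have hp3 : (p : ℤ) ∣ DD a b := by
      unfold DD
      exact Dvd.dvd.mul_left hp2 _
    rw [hap p hp1 hp3, WRT.chi_E a b ha hc p hp1 hp2]
  unfold rootNumber w
  rw [hΔ, WRT.pf a b hb hE, prod_union (WRT.disj a b hc)]
  congr 2
  · exact prod_congr rfl fun p hp => by rw [hdb p hp]
  · exact prod_congr rfl fun p hp => by rw [hdE p hp]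

end Pool.Agent.K1H88.T3
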